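import Mathlib
import Pool.Agent.H286R2.UC.Defs
import Pool.Agent.H286R2.UC.U1

set_option autoImplicit false

/-! Task U2: chain rule, conditioning, selection of `J`. -/

namespace Pool.Agent.H286R2.UC.U2aux

open Real Finset Pool.Agent.H117R2 Pool.Agent.H117R2.UC Pool.Agent.H286R2.UC

variable {α : Type*} [DecidableEq α]

theorem two_point (n0 n1 : ℕ) (h : 0 < n0 + n1) :
    ((n0 : ℝ) * (log ((n0 + n1 : ℕ) : ℝ) - log n0) + n1 * (log ((n0 + n1 : ℕ) : ℝ) - log n1)) / ((n0 + n1 : ℕ) : ℝ) =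
      hb ((n0 : ℝ) / ((n0 + n1 : ℕ) : ℝ)) := by
  have hn : (0 : ℝ) < ((n0 + n1 : ℕ) : ℝ) := by exact_mod_cast h
  have h1 : 1 - (n0 : ℝ) / ((n0 + n1 : ℕ) : ℝ) = (n1 : ℝ) / ((n0 + n1 : ℕ) : ℝ) := by
    rw [eq_div_iff hn.ne', sub_mul, div_mul_cancel₀ _ hn.ne']
    push_cast; ring
  unfold hb
  rw [h1]
  have key : ∀ m : ℕ, negMulLog ((m : ℝ) / ((n0 + n1 : ℕ) : ℝ)) =
      (m : ℝ) * (log ((n0 + n1 : ℕ) : ℝ) - log m) / ((n0 + n1 : ℕ) : ℝ) := by
    intro m
    rcases Nat.eq_zero_or_pos m with h0 | h0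
    · rw [h0]; simp
    · have hm : (0 : ℝ) < m := by exact_mod_cast h0
      unfold negMulLog
      rw [log_div hm.ne' hn.ne']
      ring
  rw [key n0, key n1]
  ring

theorem cl_insert {F : Finset (Finset α)} {S A B : Finset α} (j : α) (hB : B ∈ cl F S A) :
    cl F (insert j S) B = (cl F S A).filter (fun D => (j ∈ D ↔ j ∈ B)) := by
  have hB' := hB
  unfold cl at hB' ⊢
  rw [mem_filter] at hB'
  ext D
  simp only [mem_filter]
  constructor
  · rintro ⟨h1, h2⟩
    refine ⟨⟨h1, ?_⟩, ?_⟩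
    · rw [← hB'.2]
      ext x
      have := congrArg (fun T => x ∈ T) h2
      simp only [mem_inter, mem_insert, eq_iff_iff] at this ⊢
      constructor
      · rintro ⟨ha, hb⟩
        exact ⟨(this.1 ⟨ha, Or.inr hb⟩).1, hb⟩
      · rintro ⟨ha, hb⟩
        exact ⟨(this.2 ⟨ha, Or.inr hb⟩).1, hb⟩
    · have := congrArg (fun T => j ∈ T) h2
      simp only [mem_inter, mem_insert, eq_iff_iff, true_or, and_true] at this
      exact this
  · rintro ⟨⟨h1, h2⟩, h3⟩
    refine ⟨h1, ?_⟩
    ext x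
    have h4 : D ∩ S = B ∩ S := h2.trans hB'.2.symm
    have := congrArg (fun T => x ∈ T) h4
    simp only [mem_inter, mem_insert, eq_iff_iff] at this ⊢
    constructor
    · rintro ⟨ha, hb⟩
      rcases hb with rfl | hb
      · exact ⟨h3.1 ha, Or.inl rfl⟩
      · exact ⟨(this.1 ⟨ha, hb⟩).1, Or.inr hb⟩
    · rintro ⟨ha, hb⟩
      rcases hb with rfl | hb
      · exact ⟨h3.2 ha, Or.inl rfl⟩
      · exact ⟨(this.2 ⟨ha, hb⟩).1, Or.inr hb⟩

theorem class_avg {F : Finset (Finset α)} {S A : Finset α} (hA : A ∈ F) (j : α) :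
    (∑ B ∈ cl F S A, (log ((cl F S B).card : ℝ) - log ((cl F (insert j S) B).card : ℝ))) /
      ((cl F S A).card : ℝ) = hb (xv F S j A) := by
  set C := cl F S A with hC
  set n0 := (C.filter (fun B => j ∉ B)).card with hn0
  set n1 := (C.filter (fun B => ¬ j ∉ B)).card with hn1
  have hsum : n0 + n1 = C.card := card_filter_add_card_filter_not _
  have hpos : 0 < n0 + n1 := by rw [hsum]; exact cl_card_pos hA
  have e1 : ∀ B ∈ C.filter (fun B => j ∉ B), log ((cl F S B).card : ℝ) - log ((cl F (insert j S) B).card : ℝ) =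
      log ((n0 + n1 : ℕ) : ℝ) - log n0 := by
    intro B hB
    rw [mem_filter] at hB
    rw [cl_eq hB.1, cl_insert j hB.1, ← hC, ← hsum]
    congr 4
    apply filter_congr
    intro D _
    simp [hB.2]
  have e2 : ∀ B ∈ C.filter (fun B => ¬ j ∉ B), log ((cl F S B).card : ℝ) - log ((cl F (insert j S) B).card : ℝ) =
      log ((n0 + n1 : ℕ) : ℝ) - log n1 := by
    intro B hB
    rw [mem_filter, not_not] at hB
    rw [cl_eq hB.1, cl_insert j hB.1, ← hC, ← hsum]
    congr 4
    apply filter_congr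
    intro D _
    simp [hB.2]
  rw [← sum_filter_add_sum_filter_not C (fun B => j ∉ B), sum_congr rfl e1, sum_congr rfl e2, sum_const, sum_const,
    nsmul_eq_mul, nsmul_eq_mul, ← hn0, ← hn1, ← hsum, two_point n0 n1 hpos]
  unfold xv M0
  rw [← hC, ← hn0, ← hsum]

theorem concave_hb : ConcaveOn ℝ (Set.Icc 0 1) hb := by
  unfold hb
  have h1 : ConcaveOn ℝ (Set.Icc (0 : ℝ) 1) negMulLog :=
    concaveOn_negMulLog.subset (fun x hx => hx.1) (convex_Icc 0 1)
  have h2 : ConcaveOn ℝ (Set.Icc (0 : ℝ) 1) (fun x => negMulLog (1 - x)) := by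
    refine ⟨convex_Icc 0 1, ?_⟩
    intro x hx y hy a b ha hb hab
    have h3 := h1.2 (x := 1 - x) (y := 1 - y) ⟨by linarith [hx.2], by linarith [hx.1]⟩
      ⟨by linarith [hy.2], by linarith [hy.1]⟩ ha hb hab
    simp only [smul_eq_mul] at h3 ⊢
    have h4 : a * (1 - x) + b * (1 - y) = 1 - (a * x + b * y) := by
      calc a * (1 - x) + b * (1 - y) = (a + b) - (a * x + b * y) := by ring
        _ = _ := by rw [hab]
    rw [h4] at h3
    exact h3
  exact h1.add h2

end Pool.Agent.H286R2.UC.U2aux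

namespace Pool.Agent.H286R2.UC

open Real Finset Pool.Agent.H117R2 Pool.Agent.H117R2.UC Pool.Agent.H286R2.UC U2aux

variable {α : Type*} [DecidableEq α]

theorem Sg_hb_eq (F : Finset (Finset α)) (S : Finset α) (j : α) :
    Sg hb F S j = HH F (insert j S) - HH F S := by
  have h := sum_class F S (fun B => log ((cl F S B).card : ℝ) - log ((cl F (insert j S) B).card : ℝ))
  have h2 : Sg hb F S j = ∑ A ∈ F, (log ((cl F S A).card : ℝ) - log ((cl F (insert j S) A).card : ℝ)) := by
    rw [← h]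
    unfold Sg
    exact sum_congr rfl fun A hA => (class_avg hA j).symm
  rw [h2]
  unfold HH
  rw [← sum_sub_distrib]
  refine sum_congr rfl fun A _ => ?_
  ring

theorem Sg_hb_mono (F : Finset (Finset α)) {S S' : Finset α} (h : S ⊆ S') (j : α) :
    Sg hb F S' j ≤ Sg hb F S j := by
  rw [← sum_avT hb F S S' j]
  unfold Sg
  apply sum_le_sum
  intro A hA
  rw [← avT_id h j hA]
  unfold avT
  have hn : (0 : ℝ) < ((cl F S A).card : ℝ) := by exact_mod_cast cl_card_pos hA
  have hJ := concave_hb.le_map_sum (t := cl F S A) (w := fun _ => 1 / ((cl F S A).card : ℝ))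
    (p := fun B => xv F S' j B) (fun _ _ => by positivity)
    (by rw [sum_const, nsmul_eq_mul, mul_one_div, div_self hn.ne'])
    (fun B _ => ⟨xv_nonneg F S' j B, xv_le_one F S' j B⟩)
  simp only [smul_eq_mul, ← mul_sum] at hJ
  rw [one_div, ← div_eq_inv_mul, ← div_eq_inv_mul] at hJ
  exact hJ

theorem chainSum_hb (F : Finset (Finset α)) (S : Finset α) (l : List α) :
    chainSum (Sg hb F) S l = HH F (S ∪ l.toFinset) - HH F S := by
  induction l generalizing S with
  | nil => simp [chainSum]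
  | cons j l ih =>
    rw [chainSum, ih, Sg_hb_eq, List.toFinset_cons, insert_union, ← union_insert]
    ring

theorem HH_empty (F : Finset (Finset α)) : HH F ∅ = -((F.card : ℝ) * log F.card) := by
  unfold HH
  have h : ∀ A ∈ F, -log ((cl F ∅ A).card : ℝ) = -log F.card := by
    intro A _
    have : cl F ∅ A = F := by
      unfold cl
      apply filter_true_of_mem
      intro B _
      simp
    rw [this]
  rw [sum_congr rfl h, sum_const, nsmul_eq_mul]
  ring

theorem HH_sep {F : Finset (Finset α)} {S : Finset α} {l : List α} (hl : l.toFinset ⊆ S)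
    (hs : Sep F l) : HH F S = 0 := by
  unfold HH
  apply sum_eq_zero
  intro A hA
  have : cl F S A = {A} := by
    apply eq_singleton_iff_unique_mem.2
    refine ⟨cl_self hA, ?_⟩
    intro B hB
    unfold cl at hB
    rw [mem_filter] at hB
    apply hs B hB.1 A hA
    intro g hg
    have hgS : g ∈ S := hl (List.mem_toFinset.2 hg)
    have := congrArg (fun T => g ∈ T) hB.2
    simp only [mem_inter, hgS, and_true, eq_iff_iff] at this
    exact this
  rw [this, card_singleton, Nat.cast_one, log_one, neg_zero]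

theorem exists_J (F : Finset (Finset α)) (V : Finset α) (c : α → ℝ) :
    ∃ J ⊆ V, (∀ j ∈ J, ∀ S ⊆ J.erase j, c j ≤ Sg hb F S j) ∧
      (∀ j ∈ V \ J, ∀ S, J ⊆ S → Sg hb F S j ≤ c j) := by
  obtain ⟨J, hJ, hmax⟩ := Finset.exists_max_image V.powerset (fun J => HH F J - ∑ j ∈ J, c j)
    ⟨∅, empty_mem_powerset V⟩
  rw [mem_powerset] at hJ
  refine ⟨J, hJ, ?_, ?_⟩
  · intro j hj S hS
    refine le_trans ?_ (Sg_hb_mono F hS j)
    have h1 := hmax (J.erase j) (mem_powerset.2 ((erase_subset j J).trans hJ))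
    rw [Sg_hb_eq, insert_erase hj]
    have h2 := sum_erase_add J c hj
    linarith
  · intro j hj S hS
    rw [mem_sdiff] at hj
    refine le_trans (Sg_hb_mono F hS j) ?_
    have h1 := hmax (insert j J) (mem_powerset.2 (insert_subset hj.1 hJ))
    rw [sum_insert hj.2] at h1
    rw [Sg_hb_eq]
    linarith

end Pool.Agent.H286R2.UC
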